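import Pool.Agent.Q93.FLC.Main
import Pool.Agent.Q93.FLC.NucMH

/-!
For every Tychonoff space `X` the free locally convex space `L(X)` is multi-Hilbert if and only
if it is nuclear.

`Free X` is the vector space with basis `del x` (`x ∈ X`) with the finest locally convex topology
for which `del` is continuous; the statement includes that it is a Hausdorff locally convex space
with the universal property of `L(X)`.
-/

set_option autoImplicit false

open Filter Topology Set

namespace Pool.Agent.Results.MP_7eb7a8_an.MultiHilbertNuclear

open Pool.Agent.Q93.FLC Pool.Agent.Q93.FLC.Free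

universe u v

theorem result (X : Type u) [TopologicalSpace X] [T35Space X] :
    (T2Space (Free X) ∧ IsTopologicalAddGroup (Free X) ∧ ContinuousSMul ℝ (Free X) ∧
      LocallyConvexSpace ℝ (Free X) ∧ Continuous (del : X → Free X) ∧
      ∀ (F : Type v) [AddCommGroup F] [Module ℝ F] [TopologicalSpace F]
        [IsTopologicalAddGroup F] [ContinuousSMul ℝ F] [LocallyConvexSpace ℝ F] (f : X → F),
        Continuous f → ∃! T : Free X →L[ℝ] F, ∀ x, T (del x) = f x) ∧
    (MultiHilbert (Free X) ↔ Nuclear (Free X)) :=
  ⟨⟨inferInstance, inferInstance, inferInstance, inferInstance, continuous_del,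
    fun F _ _ _ _ _ _ f hf => universal f hf⟩,
    fun h => nuclear_of_MH (mh_of h), fun h => h.multiHilbert⟩

end Pool.Agent.Results.MP_7eb7a8_an.MultiHilbertNuclear
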